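import Pool.Agent.W921.RF.Defs

set_option autoImplicit false

namespace Pool.Agent.W586.RF

open Pool.Agent.W921.RF Nat.Partrec Primrec


theorem cod_primrec : Primrec fun q : ℕ × Lt => cod q.1 q.2 := by
  unfold cod
  have hc1 : PrimrecPred fun q : ℕ × Lt => q.2.1 = 0 :=
    Primrec.eq.comp (fst.comp snd) (const 0)
  have hc2 : PrimrecPred fun q : ℕ × Lt => q.2.2 = true :=
    Primrec.eq.comp (snd.comp snd) (const true)
  have hu1 : Primrec fun q : ℕ × Lt => q.1.unpair.1 := fst.comp (unpair.comp fst)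
  have hu2 : Primrec fun q : ℕ × Lt => q.1.unpair.2 := snd.comp (unpair.comp fst)
  have h11 : Primrec fun q : ℕ × Lt => q.1.unpair.1.unpair.1 := fst.comp (unpair.comp hu1)
  have h12 : Primrec fun q : ℕ × Lt => q.1.unpair.1.unpair.2 := snd.comp (unpair.comp hu1)
  have h21 : Primrec fun q : ℕ × Lt => q.1.unpair.2.unpair.1 := fst.comp (unpair.comp hu2)
  have h22 : Primrec fun q : ℕ × Lt => q.1.unpair.2.unpair.2 := snd.comp (unpair.comp hu2)
  exact (Primrec.ofNat Code).comp
    (Primrec.ite hc1 (Primrec.ite hc2 h11 h12) (Primrec.ite hc2 h21 h22))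

theorem evw_eq (e s : ℕ) (w : List Lt) (p : ℕ) :
    evw e s w p = w.foldr (fun l r => r.bind fun q => Code.evaln s (cod e l) q) (some p) := by
  induction w with
  | nil => rfl
  | cons l w ih => rw [List.foldr_cons, ← ih]; rfl

theorem evw_primrec : Primrec fun q : (ℕ × ℕ) × (List Lt × ℕ) => evw q.1.1 q.1.2 q.2.1 q.2.2 := by
  have h := Primrec.list_foldr (α := (ℕ × ℕ) × (List Lt × ℕ)) (β := Lt) (σ := Option ℕ)
    (f := fun q => q.2.1) (g := fun q => some q.2.2)
    (h := fun q z => z.2.bind fun x => Code.evaln q.1.2 (cod q.1.1 z.1) x)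
    (fst.comp snd) (option_some.comp (snd.comp snd))
    (by
      refine Primrec.option_bind (snd.comp snd) ?_
      refine Code.primrec_evaln.comp (pair (pair ?_ ?_) ?_)
      · exact snd.comp (fst.comp (fst.comp fst))
      · exact cod_primrec.comp (pair (fst.comp (fst.comp (fst.comp fst))) (fst.comp (snd.comp fst)))
      · exact snd)
  exact h.of_eq fun q => (evw_eq _ _ _ _).symm

theorem replicate_primrec (a : Lt) : Primrec fun n : ℕ => List.replicate n a :=
  (Primrec.list_map Primrec.list_range (Primrec.const a).to₂).of_eq fun n => by simp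

theorem wd_primrec : Primrec wd := by
  have app : ∀ {f g : ℕ → List Lt}, Primrec f → Primrec g → Primrec fun n => f n ++ g n :=
    fun hf hg => Primrec.list_append.comp hf hg
  have hr := replicate_primrec
  unfold wd
  exact app (app (app (app (app (app (app (hr _) (const _)) (hr _)) (const _)) (hr _)) (const _))
    (hr _)) (const _)

theorem pow4_primrec : Primrec fun n : ℕ => 4 ^ n := by
  have h : Primrec fun n : ℕ => Nat.rec (motive := fun _ => ℕ) 1 (fun _ r => 4 * r) n :=
    Primrec.nat_rec₁ 1 (Primrec.nat_mul.comp (Primrec.const 4) snd).to₂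
  refine h.of_eq fun n => ?_
  induction n with
  | zero => rfl
  | succ n ih => rw [pow_succ, ← ih, mul_comm]

theorem ai_primrec : Primrec ai :=
  pow4_primrec.comp (Primrec.nat_add.comp (Primrec.nat_mul.comp (const 2) Primrec.id) (const 1))

theorem bi_primrec : Primrec bi :=
  pow4_primrec.comp (Primrec.nat_add.comp (Primrec.nat_mul.comp (const 2) Primrec.id) (const 2))

/-- FOU: the search is computable. -/
theorem fou : S_FOU := by
  have h1 : Primrec fun q : ℕ × (ℕ × ℕ) => evw q.2.1 q.2.2 (wd (ai q.2.1)) q.1 :=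
    evw_primrec.comp (pair snd (pair (wd_primrec.comp (ai_primrec.comp (fst.comp snd))) fst))
  have h2 : Primrec fun q : ℕ × (ℕ × ℕ) => evw q.2.1 q.2.2 (wd (bi q.2.1)) q.1 :=
    evw_primrec.comp (pair snd (pair (wd_primrec.comp (bi_primrec.comp (fst.comp snd))) fst))
  have h3 : PrimrecPred fun q : ℕ × (ℕ × ℕ) => evw q.2.1 q.2.2 (wd (ai q.2.1)) q.1 = Option.none :=
    Primrec.eq.comp h1 (const Option.none)
  have h4 : PrimrecPred fun q : ℕ × (ℕ × ℕ) => evw q.2.1 q.2.2 (wd (ai q.2.1)) q.1 = some q.1 :=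
    Primrec.eq.comp h1 (option_some.comp fst)
  have h5 : PrimrecPred fun q : ℕ × (ℕ × ℕ) => evw q.2.1 q.2.2 (wd (bi q.2.1)) q.1 = some q.1 :=
    Primrec.eq.comp h2 (option_some.comp fst)
  have h6 : PrimrecRel fun (p : ℕ) (z : ℕ × ℕ) =>
      (¬ evw z.1 z.2 (wd (ai z.1)) p = Option.none ∧ ¬ evw z.1 z.2 (wd (ai z.1)) p = some p) ∧
        evw z.1 z.2 (wd (bi z.1)) p = some p :=
    (h3.not.and h4.not).and h5
  have h7 := h6.exists_mem_list.comp (list_range.comp (snd (α := ℕ) (β := ℕ))) Primrec.id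
  have h8 : PrimrecPred fun z : ℕ × ℕ => ∃ p < z.2,
      (¬ evw z.1 z.2 (wd (ai z.1)) p = Option.none ∧ ¬ evw z.1 z.2 (wd (ai z.1)) p = some p) ∧
        evw z.1 z.2 (wd (bi z.1)) p = some p := h7.of_eq fun z => by simp
  have h9 : PrimrecPred fun z : ℕ × ℕ => Found z.1 z.2 := by
    refine h8.of_eq fun z => ?_
    unfold Found
    refine exists_congr fun p => and_congr_right fun _ => and_congr_left fun _ => ?_
    constructor
    · rintro ⟨a, b⟩
      obtain ⟨q, hq⟩ := Option.ne_none_iff_exists'.1 a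
      exact ⟨q, hq, fun h => b (by rw [hq, h])⟩
    · rintro ⟨q, hq, hne⟩
      rw [hq]
      exact ⟨by simp, by simpa using hne⟩
  obtain ⟨hd, hp⟩ := h9
  exact ⟨hd, hp.to_comp⟩

end Pool.Agent.W586.RF
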